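import Pool.Agent.H94.EGC.All
import Pool.Agent.H45.EG4.BASE
import Pool.Agent.H45.EG3.MOM

/-!
# EG5: at most six quadrics
-/

set_option autoImplicit false

namespace Pool.EGC

open Pool.EGH

theorem ind_egc : INDStmt := by
  obtain ⟨x_gro, x_chf, x_mon, x_hga, x_col, x_lsh, x_fin, x_pns, x_rlf, x_per, x_bac, x_rgl⟩ :=
    egh_rows
  have y_mom : MOMStmt := t_mom
  have y_lxo : LXOStmt := t_lxo
  have y_sge : SGEStmt := t_SGE y_lxo
  have y_sup : SUPStmt := t_SUP y_lxo y_mom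
  have y_sl1 : SL1Stmt := t_sl1 y_mom
  have y_sl2 : SL2Stmt := t_sl2 y_mom
  have y_sl3 : SL3Stmt := t_sl3 y_mom y_sl1 y_sl2
  have y_sl4 : SL4Stmt := t_sl4 y_mom y_sl1 y_sl2
  have y_top : TOPStmt := t_top y_lxo
  have y_cmw : CMWStmt := t_cmw y_mom y_lxo y_top
  have y_cmp : CMPStmt := t_cmp y_sge y_sup y_sl1 y_sl2 y_sl3 y_sl4 y_cmw
  have y_ex1 : EX1Stmt := ex1
  have y_ex2 : EX2Stmt := ex2
  have y_cl1 : CL1Stmt := t_cl1 y_mom
  have y_cl2 : CL2Stmt := t_CL2 y_mom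
  have y_cls : CLSStmt := t_cls y_lxo y_top y_cmp y_ex1 y_ex2
  have y_clt : CLTStmt := t_clt y_cl1 y_cl2 y_cls
  have y_rzc : RZCStmt := t_rzc y_clt y_sge y_sup
  have y_snc : SNCStmt := t_snc
  have y_hfs : HFSStmt := t_hfs x_col x_hga
  have y_stp : STPStmt := t_stp y_rzc y_snc y_hfs x_mon y_sge
  have y_tr1 : TR1Stmt := t_tr1 x_lsh
  have y_tr2 : TR2Stmt := t_tr2
  have y_tr3 : TR3Stmt := t_tr3
  have y_moc : MOCStmt := t_moc y_mom
  have y_fc6 : FC6Stmt := t_fc6 y_moc y_sl1 y_sl2 y_sl3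
  have y_bas : BASStmt := t_bas y_tr1 y_tr2 y_tr3 y_fc6 y_moc y_sge y_sup x_gro x_chf x_mon
  have y_ind : INDStmt := t_ind y_bas y_stp y_hfs x_pns x_rlf x_per x_hga
  exact y_ind

end Pool.EGC

namespace Pool.EG5

open MvPolynomial Pool.EGH
open Pool.EG3 (MC)
open Pool.EG4 (dl ca so dl_length EGr)

theorem mci_of {K : Type} [Field K] {N k : ℕ} {L : List ℕ} {J : Ideal (PR K N)}
    (h : MC k L J) (h2 : ∀ d ∈ L, d = 2) : MCI k L.length J := by
  induction h with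
  | zero => exact MCI.zero
  | lin _ hl hr ih => exact MCI.lin (ih h2) hl hr
  | @form k L J d q _ _ hq hr ih =>
    have hd : d = 2 := h2 d List.mem_cons_self
    subst hd
    exact MCI.quad (ih fun d hd => h2 d (List.mem_cons_of_mem _ hd)) hq hr

theorem mem_dl {a : ℕ → ℕ} {r d : ℕ} : d ∈ dl a r ↔ ∃ i < r, d = a i := by
  induction r with
  | zero => simp [dl]
  | succ r ih =>
    rw [dl, List.mem_cons, ih]
    constructor
    · rintro (h | ⟨i, h1, h2⟩)
      · exact ⟨r, Nat.lt_succ_self r, h⟩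
      · exact ⟨i, by omega, h2⟩
    · rintro ⟨i, h1, h2⟩
      by_cases hi : i = r
      · left
        rw [h2, hi]
      · right
        exact ⟨i, by omega, h2⟩

theorem mo_eq {a : ℕ → ℕ} {r m : ℕ} (ha : ∀ i < r, a i = 2) (d : ℕ) :
    Pool.EGC.Mo (Pool.EGC.cp r m) d = Pool.EG3.Mo (ca a r m) d := by
  ext x
  rw [(Pool.EGC.t_mom m (Pool.EGC.cp r m) d x).1, (Pool.EG3.t_mom m (ca a r m) d x).1]
  refine and_congr_right fun _ => forall_congr' fun i => ?_
  unfold Pool.EGC.cp ca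
  by_cases hi : (i : ℕ) < r
  · rw [if_pos hi, ha i hi, decide_eq_true hi]
    constructor
    · intro h
      have := h rfl
      exact_mod_cast (show x i < 2 by omega)
    · intro h _
      have h2 : x i < 2 := by exact_mod_cast h
      omega
  · rw [if_neg hi, decide_eq_false hi]
    exact ⟨fun _ => ENat.natCast_lt_top _, fun _ h => absurd h (by simp)⟩

/-- At most six quadrics. -/
theorem qb {a : ℕ → ℕ} {r : ℕ} (h6 : r ≤ 6) (ha : ∀ i < r, a i = 2) : EGr a r := by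
  intro K _ _ N k m J I hkm hm hJ hJI hI
  have h1 := mci_of hJ (fun d hd => by
    obtain ⟨i, hi, rfl⟩ := mem_dl.1 hd
    exact ha i hi)
  rw [dl_length] at h1
  obtain ⟨A, hA1, hA2, hA3⟩ := Pool.EGC.ind_egc K N k m r J I hkm hm h6 h1 hJI hI
  refine ⟨A, fun d => ?_, fun d => ?_, fun d => ?_⟩
  · have h2 := hA1 d
    unfold Pool.EGC.Sg at h2
    rw [mo_eq ha] at h2
    exact h2
  · intro y hy
    apply hA2 d
    rw [(Pool.EGC.t_mom _ _ _ y).2, mo_eq ha]
    exact ((Pool.EG3.t_mom _ _ d y).2 _ _).1 hy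
  · rw [← mo_eq ha]
    exact hA3 d

end Pool.EG5
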