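import Pool.Agent.H45.EG5.SQ

/-!
# EG5: reordering of regular sequences
-/

set_option autoImplicit false

namespace Pool.EG5

open MvPolynomial Pool.EGH
open Pool.EG3 (MC t_hgm t_pem)
open Pool.EG4 (dl)

variable {K : Type} [Field K] {N : ℕ}

/-- The list is a regular sequence modulo `J`. -/
def Rl : Ideal (PR K N) → List (PR K N) → Prop
  | _, [] => True
  | J, f :: l => Rg J f ∧ Rl (J ⊔ Ideal.span {f}) l

theorem ofList_cons' (f : PR K N) (l : List (PR K N)) :
    Ideal.ofList (f :: l) = Ideal.span {f} ⊔ Ideal.ofList l := by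
  rw [← List.singleton_append, Ideal.ofList_append, Ideal.ofList_singleton]

theorem rl_append {J : Ideal (PR K N)} {l l' : List (PR K N)} :
    Rl J (l ++ l') ↔ Rl J l ∧ Rl (J ⊔ Ideal.ofList l) l' := by
  induction l generalizing J with
  | nil =>
    rw [List.nil_append, Ideal.ofList_nil, sup_bot_eq]
    exact ⟨fun h => ⟨trivial, h⟩, fun h => h.2⟩
  | cons f l ih =>
    rw [List.cons_append]
    change (Rg J f ∧ Rl (J ⊔ Ideal.span {f}) (l ++ l')) ↔
      (Rg J f ∧ Rl (J ⊔ Ideal.span {f}) l) ∧ _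
    rw [ih, ofList_cons', sup_assoc, and_assoc]

theorem rl_perm {l l' : List (PR K N)} (hp : l.Perm l') : ∀ J : Ideal (PR K N), Hg J →
    (∀ f ∈ l, ∃ d, 1 ≤ d ∧ f ∈ fm K N d) → Rl J l → Rl J l' := by
  induction hp with
  | nil => intro J _ _ h; exact h
  | cons x _ ih =>
    intro J hJ hf h
    obtain ⟨d, -, hx⟩ := hf x List.mem_cons_self
    exact ⟨h.1, ih _ (HGA.hg_sup hJ (HGA.hg_span hx))
      (fun f hf' => hf f (List.mem_cons_of_mem _ hf')) h.2⟩
  | swap x y l =>
    intro J hJ hf h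
    obtain ⟨a, ha, hy⟩ := hf y List.mem_cons_self
    obtain ⟨b, hb, hx⟩ := hf x (List.mem_cons_of_mem _ List.mem_cons_self)
    obtain ⟨h1, h2, h3⟩ := h
    obtain ⟨h4, h5⟩ := t_PRM t_HGA K N a b J y x hJ ha hb hy hx h1 h2
    exact ⟨h4, h5, by rw [sup_right_comm]; exact h3⟩
  | trans h1 _ ih1 ih2 =>
    intro J hJ hf h
    exact ih2 J hJ (fun f hf' => hf f (h1.mem_iff.2 hf')) (ih1 J hJ hf h)

theorem rl_of_wr {rs : List (PR K N)}
    (h : RingTheory.Sequence.IsWeaklyRegular (PR K N) rs) : Rl ⊥ rs := by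
  induction rs using List.reverseRecOn with
  | nil => trivial
  | append_singleton l a ih =>
    rw [RingTheory.Sequence.isWeaklyRegular_append_iff] at h
    obtain ⟨h1, h2⟩ := h
    rw [RingTheory.Sequence.isWeaklyRegular_singleton_iff] at h2
    rw [rl_append, bot_sup_eq]
    refine ⟨ih h1, ?_, trivial⟩
    intro z hz
    have h4 : a • (Submodule.Quotient.mk z :
        PR K N ⧸ (Ideal.ofList l • ⊤ : Submodule (PR K N) (PR K N))) = a • 0 := by
      rw [smul_zero, ← Submodule.Quotient.mk_smul, Submodule.Quotient.mk_eq_zero,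
        smul_eq_mul, Ideal.mul_top]
      exact hz
    have h5 := h2 h4
    rw [Submodule.Quotient.mk_eq_zero, Ideal.smul_eq_mul, Ideal.mul_top] at h5
    exact h5

theorem mc_of_rl {b : ℕ → ℕ} {g : ℕ → PR K N} (s : ℕ) (hg : ∀ i < s, 1 ≤ b i ∧ g i ∈ fm K N (b i))
    (h : Rl ⊥ ((List.range s).map g)) : MC 0 (dl b s) (Ideal.ofList ((List.range s).map g)) := by
  induction s with
  | zero =>
    rw [List.range_zero, List.map_nil, Ideal.ofList_nil]
    exact MC.zero
  | succ s ih =>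
    rw [List.range_succ, List.map_append, List.map_singleton] at h ⊢
    rw [rl_append, bot_sup_eq] at h
    obtain ⟨h1, h2, -⟩ := h
    obtain ⟨h3, h4⟩ := hg s (Nat.lt_succ_self s)
    rw [Ideal.ofList_append, Ideal.ofList_singleton]
    exact MC.form (ih (fun i hi => hg i (by omega)) h1) h3 h4 h2

theorem sq_of_rl {b : ℕ → ℕ} {s k : ℕ} (l : List (PR K N)) :
    ∀ (ds L0 : List ℕ) (J : Ideal (PR K N)), SQ b s k L0 J → Rl J l →
    List.Forall₂ (fun (f : PR K N) (d : ℕ) => 2 ≤ d ∧ ∃ h : Fin d → PR K N,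
      (∀ i, h i ∈ fm K N 1) ∧ f = ∏ i, h i) l ds →
    SQ b s k (ds.reverse ++ L0) (J ⊔ Ideal.ofList l) := by
  induction l with
  | nil =>
    intro ds L0 J hJ _ h
    cases h
    rw [Ideal.ofList_nil, sup_bot_eq, List.reverse_nil, List.nil_append]
    exact hJ
  | cons f l ih =>
    intro ds L0 J hJ hr h
    cases h with
    | @cons _ d _ ds h1 h2 =>
      obtain ⟨hd, h, hh, rfl⟩ := h1
      have h3 := ih ds (d :: L0) _ (SQ.split hJ hd hh hr.1) hr.2 h2
      rw [ofList_cons', ← sup_assoc, List.reverse_cons, List.append_assoc, List.singleton_append]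
      exact h3

end Pool.EG5
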