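import Pool.Agent.H45.EG4.All
import Pool.Agent.H45.EG5.QB
import Pool.Agent.H45.EG5.REG

/-!
# EG5: assembled
-/

set_option autoImplicit false

namespace Pool.EG5

open MvPolynomial Pool.EGH
open Pool.EG3 (Rz)
open Pool.EG4 (so EGr dl ca)

/-- The theorem over algebraically closed fields for three arbitrary forms or at most six
quadrics, followed by fast growing degrees. -/
theorem core {a : ℕ → ℕ} {r : ℕ} (hmono : Monotone a) (ha2 : 2 ≤ a 0)
    (hfast : ∀ j, 3 ≤ j → j < r → so a j ≤ a j ∨ (a j = 2 ∧ j ≤ 5)) (hr : 3 ≤ r) : EGr a r := by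
  obtain ⟨t, rfl⟩ : ∃ t, r = 3 + t := ⟨r - 3, by omega⟩
  clear hr
  induction t with
  | zero =>
    exact Pool.EG4.egrl_all a 3 hmono ha2 (fun j h1 h2 => by omega) le_rfl
  | succ t ih =>
    have h1 := ih fun j h1 h2 => hfast j h1 (by omega)
    rcases hfast (3 + t) (by omega) (by omega) with h | ⟨h, h5⟩
    · exact Pool.EG4.indl_all a (3 + t) hmono ha2 (by omega) h h1
    · refine qb (by omega) fun i hi => ?_
      have h2 := ha2.trans (hmono (Nat.zero_le i))
      have h3 := hmono (show i ≤ 3 + t by omega)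
      omega

/-- The theorem for sequences with products of linear forms. -/
theorem sq_all {b : ℕ → ℕ} {s : ℕ}
    (hb : Monotone b) (hb2 : 2 ≤ b 0) (hs : 3 ≤ s)
    (hfast : ∀ j, 3 ≤ j → j < s → so b j ≤ b j ∨ (b j = 2 ∧ j ≤ 5))
    {K : Type} [Field K] [IsAlgClosed K] {N : ℕ} (L : List ℕ) (k m : ℕ) (J I : Ideal (PR K N))
    (c : Fin m → ℕ∞) (hkm : k + m = N) (hsm : s + L.length ≤ m) (hJ : SQ b s k L J) (hJI : J ≤ I)
    (hI : Hg I) (hc : Monotone c) (hcm : Finset.univ.val.map c = mlc b s L m) : Rz I c :=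
  sq_main Pool.EG4.clt_all Pool.EG3.t_mom Pool.EG3.t_sge Pool.EG3.t_sup Pool.EG3.t_sl1
    Pool.EG3.t_sl2 Pool.EG3.t_sl3 Pool.EG3.t_sl4 hb hb2 hs (core hb hb2 hfast hs) L k m J I c
    hkm hsm hJ hJI hI hc hcm

end Pool.EG5
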