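import Pool.Agent.H45.EG4.BASE

/-!
# EG5: filtrations by products of linear forms
-/

set_option autoImplicit false

namespace Pool.EG5

open MvPolynomial Pool.EGH
open Pool.EG3 (Cp Mo up Sg Rz MC SGEStmt SUPStmt SL1Stmt SL2Stmt SL3Stmt SL4Stmt MOMStmt
  hf_eq_zero_iff)
open Pool.EG4 (Ag CLTGStmt)
open Pool.EGC (sl)

/-- The filtration. -/
theorem fil {K : Type} [Field K] {N : ℕ} {ι : Type} [DecidableEq ι] (h : ι → PR K N)
    (hh : ∀ i, h i ∈ fm K N 1) (J0 : Ideal (PR K N)) :
    ∀ (n : ℕ) (R : Finset ι), R.card = n → ∀ (I : Ideal (PR K N)) (D : ℕ), Hg I → J0 ≤ I →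
    (∏ i ∈ R, h i) ∈ I →
    ∃ Q : ℕ → Ideal (PR K N), (∀ t < n, Hg (Q t) ∧ ∃ i ∈ R, J0 ⊔ Ideal.span {h i} ≤ Q t) ∧
      (n ≠ 0 → ∃ i ∈ R, I ⊔ Ideal.span {h i} ≤ Q 0) ∧
      (∀ e, hf I e = ∑ t ∈ Finset.range n, if t ≤ e then hf (Q t) (e - t) else 0) ∧
      ∀ t, t + 1 < n → t ≤ D → hf (Q (t + 1)) (D - t) ≤ hf (Q t) (D - t) := by
  intro n
  induction n with
  | zero =>
    intro R hR I D hI hJI hprod
    rw [Finset.card_eq_zero] at hR
    rw [hR, Finset.prod_empty] at hprod
    refine ⟨fun _ => ⊤, fun t ht => absurd ht (Nat.not_lt_zero t), fun h => absurd rfl h, fun e => ?_,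
      fun t ht => absurd ht (Nat.not_lt_zero _)⟩
    rw [Finset.range_zero, Finset.sum_empty, hf_eq_zero_iff t_FIN]
    intro F _
    rw [(Ideal.eq_top_iff_one I).2 hprod]
    exact Submodule.mem_top
  | succ n ih =>
    intro R hR I D hI hJI hprod
    have hne : R.Nonempty := by
      rw [← Finset.card_pos]
      omega
    obtain ⟨i, hi, hmax⟩ := Finset.exists_max_image R
      (fun i => hf (I ⊔ Ideal.span {h i}) D) hne
    have hI1 : Hg (clI I (h i)) := HGA.hg_cl hI (hh i)
    have hII1 : I ≤ clI I (h i) := fun x hx => Ideal.mul_mem_left I _ hx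
    obtain ⟨Q, hQ1, hQ2, hQ3, hQ4⟩ := ih (R.erase i)
      (by rw [Finset.card_erase_of_mem hi, hR]; rfl) (clI I (h i)) (D - 1) hI1
      (hJI.trans hII1) (by
        change h i * ∏ j ∈ R.erase i, h j ∈ I
        rw [Finset.mul_prod_erase R h hi]
        exact hprod)
    have hcol := t_col t_FIN K N 1 I (h i) hI (hh i)
    refine ⟨fun t => match t with
      | 0 => I ⊔ Ideal.span {h i}
      | t + 1 => Q t, ?_, ?_, ?_, ?_⟩
    · intro t ht
      cases t with
      | zero =>
        exact ⟨HGA.hg_sup hI (HGA.hg_span (hh i)), i, hi, sup_le_sup_right hJI _⟩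
      | succ t =>
        obtain ⟨h1, j, hj, h2⟩ := hQ1 t (by omega)
        exact ⟨h1, j, Finset.mem_of_mem_erase hj, h2⟩
    · intro _
      exact ⟨i, hi, le_rfl⟩
    · intro e
      rw [Finset.sum_range_succ']
      simp only [Nat.zero_le, if_true, Nat.sub_zero]
      cases e with
      | zero =>
        rw [hcol.2 0 (Nat.zero_lt_one)]
        rw [Finset.sum_eq_zero (fun t _ => if_neg (by omega)), zero_add]
      | succ e =>
        have h1 := hcol.1 e
        rw [hQ3 e] at h1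
        rw [← h1, add_comm]
        congr 1
        refine Finset.sum_congr rfl fun t _ => ?_
        by_cases ht : t ≤ e
        · rw [if_pos ht, if_pos (by omega), Nat.add_sub_add_right]
        · rw [if_neg ht, if_neg (by omega)]
    · intro t ht htD
      cases t with
      | zero =>
        obtain ⟨j, hj, h1⟩ := hQ2 (by omega)
        have h2 : I ⊔ Ideal.span {h j} ≤ Q 0 := (sup_le_sup_right hII1 _).trans h1
        exact ((t_MON K N _ _ D h2).1).trans (hmax j (Finset.mem_of_mem_erase hj))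
      | succ t =>
        have h1 := hQ4 t (by omega) (by omega)
        have h2 : D - (t + 1) = D - 1 - t := by omega
        rw [h2]
        exact h1

/-- From growth in each degree to a lexicographic family. -/
theorem grow (hCL : CLTGStmt) (hSGE : SGEStmt) (hSUP : SUPStmt) {K : Type} [Field K] {N m : ℕ}
    (hm : 3 ≤ m) {c : Fin m → ℕ∞} (hc : Ag c) {I : Ideal (PR K N)}
    (hX : ∀ D, ∃ X ⊆ Mo c D, X.card + hf I D = (Mo c D).card ∧
      (up c D X).card + hf I (D + 1) ≤ (Mo c (D + 1)).card) : Rz I c := by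
  obtain ⟨m, rfl⟩ : ∃ m', m = m' + 3 := ⟨m - 3, by omega⟩
  choose X hX1 hX2 hX3 using hX
  choose B hB using fun d => (hSGE (m + 3) c d).1 (X d).card (Finset.card_le_card (hX1 d))
  refine ⟨B, fun d => (hB d).1, fun d => ?_, fun d => by
    rw [(hB d).2, add_comm]; exact hX2 d⟩
  refine (hSGE (m + 3) c (d + 1)).2 _ _ (hSUP (m + 3) c d _ (hB d).1) (hB (d + 1)).1 ?_
  rw [(hB (d + 1)).2]
  have h1 := hCL m c hc d (X d) (B d) (hX1 d) (hB d).1 (hB d).2
  have h2 := hX3 d
  have h3 := hX2 (d + 1)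
  omega

theorem swp (d e : ℕ) (F : ℕ → ℕ) :
    (∑ t ∈ Finset.range d, if t ≤ e then F t else 0) =
      ∑ t ∈ Finset.range (e + 1), if t < d then F t else 0 := by
  rw [← Finset.sum_filter, ← Finset.sum_filter]
  apply Finset.sum_congr _ (fun _ _ => rfl)
  ext t
  simp only [Finset.mem_filter, Finset.mem_range]
  omega

/-- The number of capped vectors by slices. -/
theorem mo_sl (hSL1 : SL1Stmt) (hSL2 : SL2Stmt) {m : ℕ} {c : Fin (m + 1) → ℕ∞}
    (i : Fin (m + 1)) {d : ℕ} (hd : c i = (d : ℕ∞)) (D : ℕ) :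
    (Mo c D).card = ∑ t ∈ Finset.range (D + 1),
      if t < d then (Mo (c ∘ i.succAbove) (D - t)).card else 0 := by
  obtain ⟨h1, h2, h3, h4, h5⟩ := hSL1 m c D i (Mo c D) (Finset.Subset.refl _)
  rw [h5]
  refine Finset.sum_congr rfl fun t ht => ?_
  rw [Finset.mem_range] at ht
  by_cases htd : t < d
  · rw [if_pos htd]
    congr 1
    ext x
    rw [h1, (hSL2 m c i).2.2 D t x, hd]
    exact ⟨fun h => h.2.2, fun h => ⟨by omega, by exact_mod_cast htd, h⟩⟩
  · rw [if_neg htd, h4 t (by rw [hd]; exact_mod_cast (not_lt.1 htd)), Finset.card_empty]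

/-- The combination of the slices. -/
theorem comb (hMOM : MOMStmt) (hSGE : SGEStmt) (hSL1 : SL1Stmt) (hSL2 : SL2Stmt)
    (hSL3 : SL3Stmt) (hSL4 : SL4Stmt) {K : Type} [Field K] {N m : ℕ} {c : Fin (m + 1) → ℕ∞}
    (i : Fin (m + 1)) {d : ℕ} (hd : c i = (d : ℕ∞)) {I : Ideal (PR K N)} {D : ℕ}
    {Q : ℕ → Ideal (PR K N)} (hRz : ∀ t < d, Rz (Q t) (c ∘ i.succAbove))
    (hsum : ∀ e, hf I e = ∑ t ∈ Finset.range d, if t ≤ e then hf (Q t) (e - t) else 0)
    (hmon : ∀ t, t + 1 < d → t ≤ D → hf (Q (t + 1)) (D - t) ≤ hf (Q t) (D - t)) :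
    ∃ X ⊆ Mo c D, X.card + hf I D = (Mo c D).card ∧
      (up c D X).card + hf I (D + 1) ≤ (Mo c (D + 1)).card := by
  classical
  have hRz' : ∀ t, ∃ A : ℕ → Finset (Fin m → ℕ), t < d →
      (∀ e, Sg (c ∘ i.succAbove) e (A e)) ∧
      (∀ e, up (c ∘ i.succAbove) e (A e) ⊆ A (e + 1)) ∧
      ∀ e, hf (Q t) e + (A e).card = (Mo (c ∘ i.succAbove) e).card := by
    intro t
    by_cases ht : t < d
    · obtain ⟨A, hA⟩ := hRz t ht
      exact ⟨A, fun _ => hA⟩
    · exact ⟨fun _ => ∅, fun h => absurd h ht⟩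
  choose A hA using hRz'
  obtain ⟨X, hXM, hX⟩ := hSL4 m c D i (fun t => if t < d then A t (D - t) else ∅) (by
    intro t _
    by_cases htd : t < d
    · rw [if_pos htd]
      exact ((hA t htd).1 (D - t)).1
    · rw [if_neg htd]
      exact Finset.empty_subset _)
  have hXs : ∀ t ≤ D, t < d → sl i t X = A t (D - t) := by
    intro t ht htd
    have h1 := hX t ht (by rw [hd]; exact_mod_cast htd)
    rw [if_pos htd] at h1
    exact h1
  refine ⟨X, hXM, ?_, ?_⟩
  · obtain ⟨h1, h2, h3, h4, h5⟩ := hSL1 m c D i X hXM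
    rw [h5, hsum D, swp, mo_sl hSL1 hSL2 i hd, ← Finset.sum_add_distrib]
    refine Finset.sum_congr rfl fun t ht => ?_
    rw [Finset.mem_range] at ht
    by_cases htd : t < d
    · rw [if_pos htd, if_pos htd, hXs t (by omega) htd, add_comm]
      exact (hA t htd).2.2 (D - t)
    · rw [if_neg htd, if_neg htd, h4 t (by rw [hd]; exact_mod_cast (not_lt.1 htd)),
        Finset.card_empty]
  · have hup : up c D X ⊆ Mo c (D + 1) := fun y hy => (((hMOM _ _ D y).2 X y).1 hy).1
    obtain ⟨h1, h2, h3, h4, h5⟩ := hSL1 m c (D + 1) i (up c D X) hup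
    rw [h5, hsum (D + 1), swp, mo_sl hSL1 hSL2 i hd, ← Finset.sum_add_distrib]
    refine Finset.sum_le_sum fun t ht => ?_
    rw [Finset.mem_range] at ht
    by_cases htd : t < d
    · rw [if_pos htd, if_pos htd, ← (hA t htd).2.2 (D + 1 - t), add_comm]
      refine Nat.add_le_add_left (Finset.card_le_card fun x hx => ?_) _
      rw [hSL3 m c D i X hXM t (by rw [hd]; exact_mod_cast htd)] at hx
      rcases hx with ⟨htD, hx⟩ | ⟨ht1, hx⟩
      · rw [hXs t htD htd] at hx
        have h6 := (hA t htd).2.1 (D - t) hx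
        have h7 : D + 1 - t = D - t + 1 := by omega
        rw [h7]
        exact h6
      · rw [hXs (t - 1) (by omega) (by omega)] at hx
        have h7 : D + 1 - t = D - (t - 1) := by omega
        rw [h7]
        refine (hSGE m (c ∘ i.succAbove) (D - (t - 1))).2 _ _
          ((hA (t - 1) (by omega)).1 (D - (t - 1))) ((hA t htd).1 (D - (t - 1))) ?_ hx
        have h8 := hmon (t - 1) (by omega) (by omega)
        rw [Nat.sub_add_cancel ht1] at h8
        have h9 := (hA (t - 1) (by omega)).2.2 (D - (t - 1))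
        have h10 := (hA t htd).2.2 (D - (t - 1))
        omega
    · rw [if_neg htd, if_neg htd, h4 t (by rw [hd]; exact_mod_cast (not_lt.1 htd)),
        Finset.card_empty]

end Pool.EG5
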