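import Pool.Agent.H45.EG5.All
import Pool.Agent.H45.EG4.LEXG
import Pool.Agent.H45.EG4.Main

/-!
# EG5: the theorem
-/

set_option autoImplicit false

namespace Pool.EG5

open MvPolynomial Pool.EGH
open Pool.EG3 (Rz MC)
open Pool.EG4 (so EGr dl ca lexG)

/-- The index of a member of `S`. -/
noncomputable def ix {r : ℕ} (S : Finset (Fin r)) (hS : 0 < S.card) (i : ℕ) : Fin r :=
  S.orderEmbOfFin rfl ⟨min i (S.card - 1), by omega⟩

theorem ix_eq {r : ℕ} (S : Finset (Fin r)) (hS : 0 < S.card) (i : Fin S.card) :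
    ix S hS i = S.orderEmbOfFin rfl i := by
  unfold ix
  congr 1
  apply Fin.ext
  have := i.isLt
  simp only
  omega

theorem ix_mono {r : ℕ} (S : Finset (Fin r)) (hS : 0 < S.card) : Monotone (ix S hS) := by
  intro i j hij
  unfold ix
  apply (S.orderEmbOfFin rfl).monotone
  rw [Fin.le_def]
  simp only
  omega

theorem perm_split {α : Type} {r : ℕ} (S : Finset (Fin r)) (hS : 0 < S.card) (h : Fin r → α) :
    (List.ofFn h).Perm
      ((List.range S.card).map (fun i => h (ix S hS i)) ++ (Sᶜ.toList).map h) := by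
  have h1 : (List.range S.card).map (fun i => h (ix S hS i)) =
      (List.ofFn (S.orderEmbOfFin rfl)).map h := by
    apply List.ext_getElem
    · simp
    · intro i h1 h2
      simp only [List.getElem_map, List.getElem_range, List.getElem_ofFn]
      rw [← ix_eq S hS]
  rw [h1, ← List.map_append, List.ofFn_eq_map]
  apply List.Perm.map
  rw [List.perm_ext_iff_of_nodup (List.nodup_finRange r)]
  · intro x
    simp only [List.mem_finRange, List.mem_append, true_iff, List.mem_ofFn, Finset.mem_toList,
      Finset.mem_compl]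
    by_cases hx : x ∈ S
    · left
      have : x ∈ Set.range (S.orderEmbOfFin rfl) := by
        rw [Finset.range_orderEmbOfFin]
        exact hx
      exact this
    · right
      exact hx
  · rw [List.nodup_append]
    refine ⟨List.nodup_ofFn.2 (S.orderEmbOfFin rfl).injective, Finset.nodup_toList _, ?_⟩
    intro x hx y hy
    rintro rfl
    rw [Finset.mem_toList, Finset.mem_compl] at hy
    apply hy
    rw [List.mem_ofFn] at hx
    obtain ⟨i, rfl⟩ := hx
    exact Finset.orderEmbOfFin_mem S rfl i

theorem dl_ms (b : ℕ → ℕ) (s : ℕ) : (dl b s).Perm ((List.range s).map b) := by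
  induction s with
  | zero => exact List.Perm.refl _
  | succ s ih =>
    rw [dl, List.range_succ, List.map_append, List.map_singleton]
    exact (List.Perm.cons _ ih).trans (List.perm_append_singleton _ _).symm

/-- The members of `S` below a given one. -/
theorem below {r : ℕ} (S : Finset (Fin r)) (hS : 0 < S.card) (j : ℕ) (hj : j < S.card)
    (F : Fin r → ℕ) : (S.filter (fun i => i < ix S hS j)).card = j ∧
      ∑ i ∈ S.filter (fun i => i < ix S hS j), F i = ∑ i ∈ Finset.range j, F (ix S hS i) := by
  classical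
  have h1 : S.filter (fun i => i < ix S hS j) = (Finset.range j).image (ix S hS) := by
    ext x
    rw [Finset.mem_filter, Finset.mem_image]
    constructor
    · rintro ⟨hx, hlt⟩
      have : x ∈ Set.range (S.orderEmbOfFin rfl) := by
        rw [Finset.range_orderEmbOfFin]
        exact hx
      obtain ⟨i, rfl⟩ := this
      refine ⟨i, ?_, ix_eq S hS i⟩
      rw [Finset.mem_range]
      have h2 := ix_eq S hS ⟨j, hj⟩
      simp only at h2
      rw [h2] at hlt
      exact Fin.lt_def.1 ((S.orderEmbOfFin rfl).lt_iff_lt.1 hlt)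
    · rintro ⟨i, hi, rfl⟩
      rw [Finset.mem_range] at hi
      have h2 := ix_eq S hS ⟨i, by omega⟩
      have h3 := ix_eq S hS ⟨j, hj⟩
      simp only at h2 h3
      rw [h2, h3]
      exact ⟨Finset.orderEmbOfFin_mem S rfl _,
        (S.orderEmbOfFin rfl).lt_iff_lt.2 (Fin.lt_def.2 hi)⟩
  have hinj : Set.InjOn (ix S hS) (Finset.range j : Set ℕ) := by
    intro x hx y hy hxy
    rw [Finset.coe_range, Set.mem_Iio] at hx hy
    have h2 := ix_eq S hS ⟨x, by omega⟩
    have h3 := ix_eq S hS ⟨y, by omega⟩
    simp only at h2 h3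
    rw [h2, h3] at hxy
    exact congrArg Fin.val ((S.orderEmbOfFin rfl).injective hxy)
  rw [h1]
  exact ⟨by rw [Finset.card_image_of_injOn hinj, Finset.card_range],
    Finset.sum_image hinj⟩

/-- **Theorem.** -/
theorem main5 (K : Type) [Field K] (n r : ℕ) (hr : r ≤ n)
    (I : Ideal (MvPolynomial (Fin n) K)) (f : Fin r → MvPolynomial (Fin n) K) (a : Fin r → ℕ)
    (S : Finset (Fin r)) (hS : 3 ≤ S.card)
    (hI : ∀ p ∈ I, ∀ d : ℕ, MvPolynomial.homogeneousComponent d p ∈ I)
    (hmono : Monotone a) (ha2 : ∀ i, 2 ≤ a i)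
    (hfa : ∀ i, (f i).IsHomogeneous (a i)) (hfI : ∀ i, f i ∈ I)
    (hreg : RingTheory.Sequence.IsRegular (MvPolynomial (Fin n) K) (List.ofFn f))
    (hsplit : ∀ j ∉ S, ∃ g : Fin (a j) → MvPolynomial (Fin n) (AlgebraicClosure K),
      (∀ i, (g i).IsHomogeneous 1) ∧
        MvPolynomial.map (algebraMap K (AlgebraicClosure K)) (f j) = ∏ i, g i)
    (hfast : ∀ j ∈ S, 3 ≤ (S.filter (fun i => i < j)).card →
      (∑ i ∈ S.filter (fun i => i < j), (a i - 1)) ≤ a j ∨
        (a j = 2 ∧ (S.filter (fun i => i < j)).card ≤ 5)) :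
    ∃ J : Ideal (MvPolynomial (Fin n) K),
      (∀ p ∈ J, ∀ s ∈ p.support, MvPolynomial.monomial s (1 : K) ∈ J) ∧
      (∀ s t : Fin n →₀ ℕ, s.degree = t.degree →
          MvPolynomial.monomial s (1 : K) ∈ J →
          (MonomialOrder.lex : MonomialOrder (Fin n)).toSyn s ≤
            (MonomialOrder.lex : MonomialOrder (Fin n)).toSyn t →
          MvPolynomial.monomial t (1 : K) ∈ J) ∧
      ∀ d : ℕ,
        Module.finrank K
          ↥(MvPolynomial.homogeneousSubmodule (Fin n) K d ⊓ Submodule.restrictScalars K I) =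
        Module.finrank K
          ↥(MvPolynomial.homogeneousSubmodule (Fin n) K d ⊓
              Submodule.restrictScalars K
                (Ideal.span (Set.range fun i : Fin r => MvPolynomial.X (Fin.castLE hr i) ^ a i)
                  ⊔ J)) := by
  classical
  have hS0 : 0 < S.card := by omega
  have hSr : S.card ≤ r := by
    have := Finset.card_le_univ S
    rwa [Fintype.card_fin] at this
  -- the degrees as a sequence
  obtain ⟨a', ha', hmono'⟩ : ∃ a' : ℕ → ℕ, (∀ i : Fin r, a' i = a i) ∧ Monotone a' := by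
    refine ⟨fun i => a ⟨min i (r - 1), by omega⟩, fun i => ?_, fun i j hij => ?_⟩
    · have h1 : min (i : ℕ) (r - 1) = i := by have := i.isLt; omega
      exact congrArg a (Fin.ext h1)
    · exact hmono (Fin.le_def.2 (by simp only; omega))
  set φ := MvPolynomial.map (σ := Fin n) (algebraMap K (AlgebraicClosure K)) with hφ
  set I' := I.map φ with hI'
  set b : ℕ → ℕ := fun i => a (ix S hS0 i) with hb
  set g : ℕ → PR (AlgebraicClosure K) n := fun i => φ (f (ix S hS0 i)) with hg
  set ds : List ℕ := (Sᶜ.toList).map a with hds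
  have hbmono : Monotone b := fun i j hij => hmono (ix_mono S hS0 hij)
  have hRl : Rl ⊥ (List.ofFn fun i => φ (f i)) := by
    have h1 := Pool.EGH.Bac.wr_map (AlgebraicClosure K) hreg.toIsWeaklyRegular
    rw [List.map_ofFn] at h1
    exact rl_of_wr h1
  have hhom : ∀ i, φ (f i) ∈ fm (AlgebraicClosure K) n (a i) := fun i =>
    MvPolynomial.IsHomogeneous.map (hfa i) _
  have hRl2 := rl_perm (perm_split S hS0 fun i => φ (f i)) ⊥ HGA.hg_bot (by
    intro p hp
    rw [List.mem_ofFn] at hp
    obtain ⟨i, rfl⟩ := hp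
    exact ⟨a i, by have := ha2 i; omega, hhom i⟩) hRl
  rw [rl_append, bot_sup_eq] at hRl2
  have hMC := mc_of_rl (b := b) (g := g) S.card
    (fun i _ => ⟨le_trans one_le_two (ha2 (ix S hS0 i)), hhom _⟩) hRl2.1
  have hSQ := sq_of_rl _ ds [] _ (SQ.core hMC) hRl2.2 (by
    rw [List.forall₂_map_left_iff, List.forall₂_map_right_iff, List.forall₂_same]
    intro j hj
    rw [Finset.mem_toList, Finset.mem_compl] at hj
    obtain ⟨h, h1, h2⟩ := hsplit j hj
    exact ⟨ha2 j, h, h1, h2⟩)
  rw [List.append_nil] at hSQ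
  have hle : Ideal.ofList ((List.range S.card).map g) ⊔
      Ideal.ofList ((Sᶜ.toList).map fun i => φ (f i)) ≤ I' := by
    refine sup_le ?_ ?_
    · unfold Ideal.ofList
      rw [Ideal.span_le]
      intro p hp
      obtain ⟨i, -, rfl⟩ := List.mem_map.1 hp
      exact Ideal.mem_map_of_mem _ (hfI _)
    · unfold Ideal.ofList
      rw [Ideal.span_le]
      intro p hp
      obtain ⟨i, -, rfl⟩ := List.mem_map.1 hp
      exact Ideal.mem_map_of_mem _ (hfI _)
  have hlen : ds.length = r - S.card := by
    rw [hds, List.length_map, Finset.length_toList, Finset.card_compl, Fintype.card_fin]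
  have hms : Finset.univ.val.map (ca a' r n) = mlc b S.card ds.reverse n := by
    obtain ⟨t, rfl⟩ : ∃ t, n = r + t := ⟨n - r, by omega⟩
    rw [ms_ca]
    unfold mlc
    have h1 : (dl a' r : Multiset ℕ) = (dl b S.card : Multiset ℕ) + (ds.reverse : Multiset ℕ) := by
      rw [Multiset.coe_add, Multiset.coe_eq_coe]
      refine (dl_ms a' r).trans ?_
      have h2 : (List.range r).map a' = List.ofFn a := by
        apply List.ext_getElem
        · simp
        · intro i h1 h2
          simp only [List.getElem_map, List.getElem_range, List.getElem_ofFn]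
          exact ha' ⟨i, by simpa using h2⟩
      rw [h2]
      exact (perm_split S hS0 a).trans
        (List.Perm.append (dl_ms b S.card).symm (List.reverse_perm ds).symm)
    rw [h1, Multiset.map_add]
    have h2 : r + t - r - ([] : List ℕ).length = r + t - S.card - ds.reverse.length := by
      rw [List.length_reverse, hlen, List.length_nil]
      omega
    rw [h2]
    simp
  have hcore : ∀ j, 3 ≤ j → j < S.card → so b j ≤ b j ∨ (b j = 2 ∧ j ≤ 5) := by
    intro j h3 hj
    obtain ⟨h1, h2⟩ := below S hS0 j hj (fun i => a i - 1)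
    have hmem : ix S hS0 j ∈ S := by
      have := ix_eq S hS0 ⟨j, hj⟩
      simp only at this
      rw [this]
      exact Finset.orderEmbOfFin_mem S rfl _
    have h4 := hfast (ix S hS0 j) hmem (by rw [h1]; exact h3)
    rw [h1, h2] at h4
    exact h4
  have hIg : Hg I' := Pool.EGH.Bac.hg_map _ hI
  have hRz := sq_all (b := b) (s := S.card) hbmono (ha2 _) hS hcore ds.reverse 0 n _ I'
    (ca a' r n) (zero_add n) (by rw [List.length_reverse, hlen]; omega) hSQ hle hIg
    (mono_ca hmono' r n) hms
  have hfun : a = fun i : Fin r => a' i := funext fun i => (ha' i).symm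
  rw [hfun]
  obtain ⟨A, hA1, hA2, hA3⟩ := hRz
  exact lexG hr a' I ⟨A, hA1, hA2, fun d => by
    rw [← Pool.EGH.Bac.hf_map (AlgebraicClosure K) hI d]
    exact hA3 d⟩

end Pool.EG5
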