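import Pool.Agent.H45.EG5.FIL
import Pool.Agent.H85.EG3.PEM

/-!
# EG5: regular sequences with products of linear forms
-/

set_option autoImplicit false

namespace Pool.EG5

open MvPolynomial Pool.EGH
open Pool.EG3 (Cp Mo up Sg Rz MC SGEStmt SUPStmt SL1Stmt SL2Stmt SL3Stmt SL4Stmt MOMStmt
  hf_eq_zero_iff t_hgm t_pem)
open Pool.EG4 (Ag CLTGStmt dl ca EGr ca_snoc dl_length)
open Pool.EGC (sl)

/-- `J` is generated by a regular sequence of `k` linear forms, of `s` forms of the degrees
`b 0, ..., b (s - 1)` and of products of linear forms of the degrees in the list. -/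
inductive SQ {K : Type} [Field K] {N : ℕ} (b : ℕ → ℕ) (s : ℕ) :
    ℕ → List ℕ → Ideal (PR K N) → Prop
  | core {k : ℕ} {J : Ideal (PR K N)} : MC k (dl b s) J → SQ b s k [] J
  | split {k : ℕ} {L : List ℕ} {J : Ideal (PR K N)} {d : ℕ} {h : Fin d → PR K N} :
      SQ b s k L J → 2 ≤ d → (∀ i, h i ∈ fm K N 1) → Rg J (∏ i, h i) →
      SQ b s k (d :: L) (J ⊔ Ideal.span {∏ i, h i})

theorem prod_mem {K : Type} [Field K] {N : ℕ} {ι : Type} (R : Finset ι) {h : ι → PR K N}
    (hh : ∀ i, h i ∈ fm K N 1) : (∏ i ∈ R, h i) ∈ fm K N R.card := by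
  have := MvPolynomial.IsHomogeneous.prod R h (fun _ => 1) (fun i _ => hh i)
  rwa [Finset.sum_const, smul_eq_mul, mul_one] at this

theorem sq_hg {K : Type} [Field K] {N : ℕ} {b : ℕ → ℕ} {s k : ℕ} {L : List ℕ}
    {J : Ideal (PR K N)} (h : SQ b s k L J) : Hg J := by
  induction h with
  | core h => exact t_hgm K N _ _ _ h
  | split _ _ hh _ ih => exact HGA.hg_sup ih (HGA.hg_span (prod_mem _ hh))

theorem sq_pem {K : Type} [Field K] {N : ℕ} {b : ℕ → ℕ} {s k : ℕ} {L : List ℕ}
    {J : Ideal (PR K N)} (h : SQ b s k L J) {l : PR K N} (hl : l ∈ fm K N 1) (hr : Rg J l) :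
    SQ b s (k + 1) L (J ⊔ Ideal.span {l}) := by
  induction h with
  | core h => exact SQ.core (t_pem K N _ _ _ l h hl hr)
  | @split L J d h hM hd hh hrq ih =>
    have hJ : Hg J := sq_hg hM
    have hq := prod_mem Finset.univ hh
    rw [Finset.card_univ, Fintype.card_fin] at hq
    obtain ⟨h3, h4⟩ := t_PRM t_HGA K N d 1 J _ l hJ (by omega) (by norm_num) hq hl hrq hr
    have h5 := SQ.split (ih h3) hd hh h4
    have h6 : J ⊔ Ideal.span {l} ⊔ Ideal.span {∏ i, h i} =
        J ⊔ Ideal.span {∏ i, h i} ⊔ Ideal.span {l} := sup_right_comm _ _ _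
    rw [h6] at h5
    exact h5

/-- The multiset of the caps. -/
def mlc (b : ℕ → ℕ) (s : ℕ) (L : List ℕ) (m : ℕ) : Multiset ℕ∞ :=
  ((dl b s : Multiset ℕ).map (fun x : ℕ => (x : ℕ∞))) + ((L : Multiset ℕ).map (fun x : ℕ => (x : ℕ∞))) +
    Multiset.replicate (m - s - L.length) ⊤

theorem ms_snoc {α : Type} {m : ℕ} (f : Fin m → α) (x : α) :
    (Finset.univ.val.map (Fin.snoc f x : Fin (m + 1) → α)) = x ::ₘ Finset.univ.val.map f := by
  rw [Fin.univ_val_map, Fin.univ_val_map, List.ofFn_succ', List.concat_eq_append]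
  simp only [Fin.snoc_castSucc, Fin.snoc_last, Multiset.cons_coe, Multiset.coe_eq_coe]
  exact List.perm_append_singleton x _

theorem ms_sa {α : Type} {m : ℕ} (c : Fin (m + 1) → α) (i : Fin (m + 1)) :
    (Finset.univ.val.map c) = c i ::ₘ Finset.univ.val.map (c ∘ i.succAbove) := by
  rw [Fin.univ_succAbove m i, Finset.cons_val, Multiset.map_cons, Finset.map_val,
    Multiset.map_map]
  rfl

theorem ms_ca0 (b : ℕ → ℕ) (s : ℕ) : Finset.univ.val.map (ca b s s) =
    (dl b s : Multiset ℕ).map (fun x : ℕ => (x : ℕ∞)) := by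
  induction s with
  | zero => rfl
  | succ s ih =>
    have h1 : ca b (s + 1) (s + 1) = (Fin.snoc (ca b s s) ((b s : ℕ) : ℕ∞) : Fin (s + 1) → ℕ∞) := by
      funext i
      by_cases hi : i = Fin.last s
      · rw [hi, Fin.snoc_last]
        unfold ca
        rw [if_pos (by simp), Fin.val_last]
      · obtain ⟨i', rfl⟩ := Fin.exists_castSucc_eq.2 hi
        rw [Fin.snoc_castSucc]
        unfold ca
        rw [if_pos (by simp), if_pos (by simp), Fin.val_castSucc]
    rw [h1, ms_snoc, ih, dl, ← Multiset.cons_coe, Multiset.map_cons]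

theorem ms_ca (b : ℕ → ℕ) (s t : ℕ) : Finset.univ.val.map (ca b s (s + t)) =
    mlc b s [] (s + t) := by
  induction t with
  | zero =>
    rw [add_zero, ms_ca0]
    unfold mlc
    simp
  | succ t ih =>
    rw [← add_assoc, ← ca_snoc b s (s + t) (by omega), ms_snoc, ih]
    unfold mlc
    have h1 : s + t + 1 - s - ([] : List ℕ).length = (s + t - s - ([] : List ℕ).length) + 1 := by
      simp
      omega
    rw [h1, Multiset.replicate_succ]
    simp [Multiset.add_cons]

theorem mono_unique {m : ℕ} {c c' : Fin m → ℕ∞} (h : Monotone c) (h' : Monotone c')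
    (he : Finset.univ.val.map c = Finset.univ.val.map c') : c = c' := by
  rw [Fin.univ_val_map, Fin.univ_val_map, Multiset.coe_eq_coe] at he
  exact List.ofFn_injective (he.eq_of_sortedLE h.sortedLE_ofFn h'.sortedLE_ofFn)

theorem mono_ca {b : ℕ → ℕ} (hb : Monotone b) (s m : ℕ) : Monotone (ca b s m) := by
  intro i j hij
  unfold ca
  by_cases hj : (j : ℕ) < s
  · have hi : (i : ℕ) < s := lt_of_le_of_lt (Fin.le_def.1 hij) hj
    rw [if_pos hi, if_pos hj]
    exact_mod_cast hb (Fin.le_def.1 hij)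
  · rw [if_neg hj]
    exact le_top

theorem mem_dl2 {b : ℕ → ℕ} {s d : ℕ} (h : d ∈ dl b s) : ∃ i, d = b i := by
  induction s with
  | zero => simp [dl] at h
  | succ s ih =>
    rw [dl, List.mem_cons] at h
    rcases h with h | h
    · exact ⟨s, h⟩
    · exact ih h

theorem mlc_two {b : ℕ → ℕ} (hb : ∀ i, 2 ≤ b i) {s m : ℕ} {L : List ℕ} (hL : ∀ d ∈ L, 2 ≤ d)
    {x : ℕ∞} (hx : x ∈ mlc b s L m) : 2 ≤ x := by
  unfold mlc at hx
  rw [Multiset.mem_add, Multiset.mem_add, Multiset.mem_map, Multiset.mem_map] at hx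
  rcases hx with (⟨y, hy, rfl⟩ | ⟨y, hy, rfl⟩) | hx
  · obtain ⟨i, rfl⟩ := mem_dl2 hy
    exact_mod_cast hb i
  · exact_mod_cast hL y hy
  · rw [Multiset.eq_of_mem_replicate hx]
    exact le_top

theorem sq_two {K : Type} [Field K] {N : ℕ} {b : ℕ → ℕ} {s k : ℕ} {L : List ℕ}
    {J : Ideal (PR K N)} (h : SQ b s k L J) : ∀ d ∈ L, 2 ≤ d := by
  induction h with
  | core _ => intro d hd; simp at hd
  | split _ hd _ _ ih =>
    intro e he
    rcases List.mem_cons.1 he with h | h
    · rw [h]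
      exact hd
    · exact ih e h

/-- The theorem for regular sequences with products of linear forms. -/
theorem sq_main (hCL : CLTGStmt) (hMOM : MOMStmt) (hSGE : SGEStmt) (hSUP : SUPStmt)
    (hSL1 : SL1Stmt) (hSL2 : SL2Stmt) (hSL3 : SL3Stmt) (hSL4 : SL4Stmt) {b : ℕ → ℕ} {s : ℕ}
    (hb : Monotone b) (hb2 : 2 ≤ b 0) (hs : 3 ≤ s) (hEG : EGr b s)
    {K : Type} [Field K] [IsAlgClosed K] {N : ℕ} :
    ∀ (L : List ℕ) (k m : ℕ) (J I : Ideal (PR K N)) (c : Fin m → ℕ∞), k + m = N →
      s + L.length ≤ m → SQ b s k L J → J ≤ I → Hg I → Monotone c →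
      Finset.univ.val.map c = mlc b s L m → Rz I c := by
  intro L
  induction L with
  | nil =>
    intro k m J I c hkm hsm hJ hJI hI hc hcm
    rw [List.length_nil, add_zero] at hsm
    have hJ' : MC k (dl b s) J := by
      cases hJ with
      | core h => exact h
    have h1 := hEG K N k m J I hkm hsm hJ' hJI hI
    obtain ⟨t, rfl⟩ : ∃ t, m = s + t := ⟨m - s, by omega⟩
    rw [← ms_ca] at hcm
    rw [mono_unique hc (mono_ca hb s (s + t)) hcm]
    exact h1
  | cons d L ih =>
    intro k m J I c hkm hsm hJ hJI hI hc hcm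
    rw [List.length_cons] at hsm
    obtain ⟨m, rfl⟩ : ∃ m', m = m' + 1 := ⟨m - 1, by omega⟩
    have hb' : ∀ i, 2 ≤ b i := fun i => hb2.trans (hb (Nat.zero_le i))
    have hL2 := sq_two hJ
    have hdm : ((d : ℕ) : ℕ∞) ∈ Finset.univ.val.map c := by
      rw [hcm]
      unfold mlc
      rw [Multiset.mem_add, Multiset.mem_add]
      left
      right
      rw [Multiset.mem_map]
      exact ⟨d, List.mem_cons_self, rfl⟩
    obtain ⟨i, -, hi⟩ := Multiset.mem_map.1 hdm
    have hc' : Monotone (c ∘ i.succAbove) := hc.comp (Fin.strictMono_succAbove i).monotone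
    have hcm' : Finset.univ.val.map (c ∘ i.succAbove) = mlc b s L m := by
      rw [ms_sa c i, hi] at hcm
      have h1 : mlc b s (d :: L) (m + 1) = ((d : ℕ) : ℕ∞) ::ₘ mlc b s L m := by
        unfold mlc
        have h2 : m + 1 - s - (d :: L).length = m - s - L.length := by
          rw [List.length_cons]
          omega
        rw [h2, ← Multiset.cons_coe, Multiset.map_cons, Multiset.add_cons, Multiset.cons_add]
      rw [h1, Multiset.cons_inj_right] at hcm
      exact hcm
    generalize hLL : d :: L = LL at hJ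
    cases hJ with
    | core _ => exact absurd hLL (by simp)
    | @split L' J0 d' h hJ0 hd hh hr =>
      obtain ⟨rfl, rfl⟩ := List.cons_eq_cons.1 hLL
      have hJ0I : J0 ≤ I := le_sup_left.trans hJI
      have hpI : (∏ i, h i) ∈ I :=
        hJI (Ideal.mem_sup_right (Ideal.mem_span_singleton_self _))
      have hri : ∀ i, Rg J0 (h i) := by
        intro i z hz
        apply hr
        rw [← Finset.mul_prod_erase Finset.univ h (Finset.mem_univ i)]
        have : h i * (∏ x ∈ Finset.univ.erase i, h x) * z =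
            (∏ x ∈ Finset.univ.erase i, h x) * (h i * z) := by ring
        rw [this]
        exact Ideal.mul_mem_left _ _ hz
      refine grow hCL hSGE hSUP (by omega) ⟨hc, fun j => ?_⟩ fun D => ?_
      · refine mlc_two hb' (s := s) (m := m + 1) (L := d :: L) hL2 ?_
        rw [← hcm]
        exact Multiset.mem_map_of_mem c (Finset.mem_univ j)
      · obtain ⟨Q, hQ1, -, hQ3, hQ4⟩ := fil h hh J0 d Finset.univ (Finset.card_fin d) I D hI
          hJ0I hpI
        refine comb hMOM hSGE hSL1 hSL2 hSL3 hSL4 i hi (fun t ht => ?_) hQ3 hQ4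
        obtain ⟨hg, j, -, hj⟩ := hQ1 t ht
        exact ih (k + 1) m (J0 ⊔ Ideal.span {h j}) (Q t) (c ∘ i.succAbove) (by omega) (by omega)
          (sq_pem hJ0 (hh j) (hri j)) hj hg hc' hcm'

end Pool.EG5
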